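import Pool.Agent.W243.TD.Use
import Pool.Agent.H340R2.LW
import Pool.Agent.W242.GG.Count

/-!
# The powers `b ^ P(π)` and `b ^ P(e)`

`P = X` gives `b ^ π` and `b ^ e`.
-/

set_option autoImplicit false

namespace Pool.Agent.Results.MP_ee2255_nt.PolynomialExponents

open Polynomial Module
open Pool.Agent.W243.TD

theorem dep_al {t w : ℂ} (ht : Transcendental ℚ t) (h : ¬ AlgebraicIndependent ℚ ![t, w]) :
    Al t w := by
  by_contra hb
  exact h (Pool.Agent.W242.GG.algInd_pair ht hb)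

theorem span_family2 {t y : ℂ} (ht : Transcendental ℚ t) (hy : y ≠ 0) (n : ℕ) (S : Set ℚ[X])
    (hS : ∀ P ∈ S, P.natDegree ≤ n ∧ Al t (Complex.exp (y * aeval t P))) :
    (finrank ℚ (Submodule.span ℚ S) + 1) ^ 2 ≤ 8 * n + 7 := by
  have h1 : Submodule.span ℚ S = Submodule.span ℚ (Set.range (fun s : S => (s : ℚ[X]))) := by
    rw [Subtype.range_coe]
  apply num2
  intro m
  apply fam2 t y ht hy n
  · rw [h1]; exact deg_span (fun s => (hS s s.2).1)
  · rw [h1]; exact al_exp_poly (fun s => (hS s s.2).2)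

theorem real_dep {a b : ℝ} (h : ¬ AlgebraicIndependent ℚ ![a, b]) :
    ¬ AlgebraicIndependent ℚ ![(a : ℂ), (b : ℂ)] := by
  intro h1
  apply h
  have h2 : ![(a : ℂ), (b : ℂ)] = (Algebra.algHom ℚ ℝ ℂ) ∘ ![a, b] := by
    funext i
    fin_cases i <;> rfl
  rw [h2] at h1
  exact (AlgHom.algebraicIndependent_iff (Algebra.algHom ℚ ℝ ℂ)
    (algebraMap ℝ ℂ).injective).1 h1

theorem real_aeval (t : ℝ) (P : ℚ[X]) : ((aeval t P : ℝ) : ℂ) = aeval (t : ℂ) P := by
  have := Polynomial.aeval_algebraMap_apply ℂ t P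
  exact this.symm

theorem real_al {t w : ℝ} (ht : Transcendental ℚ (t : ℂ)) (h : ¬ AlgebraicIndependent ℚ ![t, w]) :
    Al (t : ℂ) (w : ℂ) := dep_al ht (real_dep h)

theorem rpow_eq {b x : ℝ} (hb : 0 < b) :
    ((b ^ x : ℝ) : ℂ) = Complex.exp ((Real.log b : ℝ) * (x : ℂ)) := by
  rw [Real.rpow_def_of_pos hb]
  push_cast
  rfl

theorem real_family {t b : ℝ} (ht : Transcendental ℚ (t : ℂ)) (hb : 0 < b) (hb1 : b ≠ 1) (n : ℕ) :
    (finrank ℚ (Submodule.span ℚ {P : ℚ[X] | P.natDegree ≤ n ∧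
      ¬ AlgebraicIndependent ℚ ![t, b ^ aeval t P]}) + 1) ^ 2 ≤ 8 * n + 7 := by
  have hlog : ((Real.log b : ℝ) : ℂ) ≠ 0 := by
    have : Real.log b ≠ 0 := Real.log_ne_zero_of_pos_of_ne_one hb hb1
    exact_mod_cast this
  refine span_family2 ht hlog n _ ?_
  rintro P ⟨h2, h3⟩
  refine ⟨h2, ?_⟩
  have h4 := real_al ht h3
  rwa [rpow_eq hb, real_aeval] at h4

theorem real_powers {t b : ℝ} (ht : Transcendental ℚ (t : ℂ)) (hb : 0 < b) (hb1 : b ≠ 1)
    (hba : IsAlgebraic ℚ b) (n : ℕ) (E : Finset ℕ)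
    (hE : ∀ k ∈ E, 1 ≤ k ∧ k ≤ n ∧ ¬ AlgebraicIndependent ℚ ![t, b ^ t ^ k]) :
    (E.card + 2) ^ 2 ≤ 8 * n + 7 := by
  classical
  have hlog : ((Real.log b : ℝ) : ℂ) ≠ 0 := by
    have : Real.log b ≠ 0 := Real.log_ne_zero_of_pos_of_ne_one hb hb1
    exact_mod_cast this
  have h0 : 0 ∉ E := fun h => by have := (hE 0 h).1; omega
  let f : (insert 0 E : Finset ℕ) → ℚ[X] := fun k => X ^ (k : ℕ)
  have h2 : LinearIndependent ℚ f := by
    have := (Polynomial.basisMonomials ℚ).linearIndependent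
    have h3 := this.comp (fun k : (insert 0 E : Finset ℕ) => (k : ℕ)) Subtype.val_injective
    convert h3 using 1
    funext k
    simp [f, Polynomial.X_pow_eq_monomial]
  have h3 : finrank ℚ (Submodule.span ℚ (Set.range f)) = E.card + 1 := by
    rw [finrank_span_eq_card h2, Fintype.card_coe, Finset.card_insert_of_notMem h0]
  have h4 : (E.card + 1 + 1) ^ 2 ≤ 8 * n + 7 := by
    rw [← h3]
    apply num2
    intro m
    apply fam2 (t : ℂ) ((Real.log b : ℝ) : ℂ) ht hlog n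
    · apply deg_span
      rintro ⟨k, hk⟩
      simp only [f, natDegree_X_pow]
      rcases Finset.mem_insert.1 hk with rfl | hk
      · omega
      · exact (hE k hk).2.1
    · apply al_exp_poly
      rintro ⟨k, hk⟩
      simp only [f]
      rcases Finset.mem_insert.1 hk with rfl | hk
      · have h5 : Al (t : ℂ) (b : ℂ) :=
          (hba.algebraMap (A := ℂ)).extendScalars (algebraMap ℚ _).injective
        have h6 : Complex.exp (((Real.log b : ℝ) : ℂ) * aeval (t : ℂ) (X ^ 0 : ℚ[X])) = (b : ℂ) := by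
          rw [pow_zero, map_one, mul_one, ← Complex.ofReal_exp, Real.exp_log hb]
        rw [h6]
        exact h5
      · have h5 := real_al ht (hE k hk).2.2
        rw [rpow_eq hb] at h5
        simpa using h5
  exact h4

/-- The powers `b ^ P(t)`, `b > 1` an integer, `t = π` or `t = e`. -/
theorem result (b : ℕ) (hb : 2 ≤ b) (t : ℝ) (ht : t = Real.pi ∨ t = Real.exp 1) (n : ℕ) :
    (finrank ℚ (Submodule.span ℚ {P : ℚ[X] | P.natDegree ≤ n ∧
      ¬ AlgebraicIndependent ℚ ![t, (b : ℝ) ^ aeval t P]}) + 1) ^ 2 ≤ 8 * n + 7 ∧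
    ∀ E : Finset ℕ, (∀ k ∈ E, 1 ≤ k ∧ k ≤ n ∧ ¬ AlgebraicIndependent ℚ ![t, (b : ℝ) ^ t ^ k]) →
      (E.card + 2) ^ 2 ≤ 8 * n + 7 := by
  have ht' : Transcendental ℚ (t : ℂ) := by
    rcases ht with rfl | rfl
    · exact Pool.Agent.H340R2.LW.transcendental_pi_complex
    · have h1 := Pool.Agent.H340R2.LW.transcendental_exp_one_complex
      rwa [← Complex.ofReal_one, ← Complex.ofReal_exp] at h1
  have hb0 : (0 : ℝ) < (b : ℝ) := by exact_mod_cast (by omega : 0 < b)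
  have hb1 : (b : ℝ) ≠ 1 := by
    have : b ≠ 1 := by omega
    exact_mod_cast this
  exact ⟨real_family ht' hb0 hb1 n, fun E hE => real_powers ht' hb0 hb1 (isAlgebraic_natCast b) n E hE⟩

end Pool.Agent.Results.MP_ee2255_nt.PolynomialExponents
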